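import Pool.Agent.Lib.MP_fb3619_al.V.Main
import Pool.Agent.Lib.MP_fb3619_al.FP.Main
import Pool.Agent.Lib.MP_fb3619_al.WT.Main
import Pool.Agent.Lib.MP_fb3619_al.HW.Main

/-!
# MP_fb3619_al, board V: THE V-THEOREM
-/

set_option autoImplicit false

universe u

namespace Pool.Agent.FourGp.FF.Vt

/-- THE V-THEOREM, frame form. -/
theorem vthm' : VthmS.{u} := main Fp.fpf' Fp.nne Fp.pv1' Wt.ws Hw.hws

end Pool.Agent.FourGp.FF.Vt
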