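import Pool.Agent.Lib.MP_fb3619_al.FP.Base
import Pool.Agent.Lib.MP_fb3619_al.WT.Iface

/-!
# MP_fb3619_al, board V: THE V-THEOREM, top level

`K` periodic without involutions, a four-group of automorphisms with finite `F = C_K(V)`:
`K` is locally finite. Paper: `V/Paper.md`.
-/

set_option autoImplicit false

universe u

namespace Pool.Agent.FourGp.FF.Vt

open Pool.Agent.FourGp.H99 (LF)
open Pool.Agent.FourGp.FF.Bs (MinC Min0 RedS)
open Pool.Agent.FourGp.FF.Fi (Tm AT)
open Pool.Agent.FourGp.FF.Pq (TA mem_TA)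
open Pool.Agent.FourGp.FF.Fp

/-- THEOREM H, wild part (4520): exactly one wild type is impossible. -/
def HwS : Prop := ∀ (G : Type u) [Group G] (K : Subgroup G) (a b c : G), MinC K a b c →
  ¬ Tm K a b c a → Tm K a b c b → Tm K a b c c → False

/-- THE TAME CASE (4575): all types tame is impossible. -/
def AtS : Prop := ∀ (G : Type u) [Group G] (K : Subgroup G) (a b c : G), MinC K a b c →
  ¬ AT K a b c

/-- THE V-THEOREM, frame form. -/
def VthmS : Prop := ∀ (G : Type u) [Group G] (K : Subgroup G) (a b c : G), Fr K a b c →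
    (Fx K a b : Set G).Finite → LF K

theorem tm_of_ta {G : Type u} [Group G] {K : Subgroup G} {a b c : G} (h : Fr K a b c)
    (hT : (TA K a b).relIndex (Cz K a) ≠ 0) : Tm K a b c a :=
  ⟨TA K a b, hT, fun _ ht => Abo.tt_of h ((mem_TA h).1 ht).1 ((mem_TA h).1 ht).2⟩

/-- THEOREM W in the form: `a` wild implies `b` tame. -/
theorem ws (hW : Wt.WS.{u}) (G : Type u) [Group G] (K : Subgroup G) (a b c : G)
    (m : MinC K a b c) (hw : ¬ Tm K a b c a) : Tm K a b c b := by
  rcases hW G K a b c m with h | h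
  · exact absurd (tm_of_ta m.fr h) hw
  · exact (tm_of_ta m.fr.swap h).swap

/-- The minimal counterexample does not exist. -/
theorem top (hW : Wt.WS.{u}) (hH : HwS.{u}) (hN : AtS.{u}) :
    ∀ (G : Type u) [Group G] (K : Subgroup G) (a b c : G), ¬ MinC K a b c := by
  have key : ∀ (G : Type u) [Group G] (K : Subgroup G) (a b c : G), MinC K a b c →
      Tm K a b c a := by
    intro G _ K a b c m
    by_contra hw
    have tc : Tm K a b c c := by
      have hw' : ¬ Tm K a c b a := fun h => hw (Tm.rot (Tm.swap h))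
      exact Tm.rot (Tm.swap (ws hW G K a c b (minC_swap' m) hw'))
    exact hH G K a b c m hw (ws hW G K a b c m hw) tc
  intro G _ K a b c m
  exact hN G K a b c m ⟨key G K a b c m, (key G K b a c (minC_swap m)).swap,
      (key G K c a b (minC_rot2 m)).rot⟩

/-- THE V-THEOREM, frame form. -/
theorem vthm (h0 : RedS.{u}) (hW : Wt.WS.{u}) (hH : HwS.{u}) (hN : AtS.{u}) : VthmS.{u} :=
  h0 (top hW hH hN)

end Pool.Agent.FourGp.FF.Vt
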