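import Pool.Agent.Lib.MP_fb3619_al.V.Res
import Pool.Agent.Lib.MP_fb3619_al.BS.Main
import Pool.Agent.Lib.MP_fb3619_al.H90.Noi

/-!
# MP_fb3619_al, board V: assembly. Input still open: FpfS, NneS, PvS, WS, HwS.
-/

set_option autoImplicit false

universe u

namespace Pool.Agent.FourGp.FF.Vt

open Pool.Agent.FourGp.H99 (LF)
open Pool.Agent.FourGp.FF.Bs (MinC Min0 RedS)
open Pool.Agent.FourGp.FF.Fi (Tm AT)

theorem atS (fpf : Fp.FpfS.{u}) (nne : Fp.NneS.{u}) (pv : H8.PvS.{u}) : AtS.{u} :=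
  fun _ _ _ _ _ _ m t => H90.noi2 fpf nne pv m t

theorem main (fpf : Fp.FpfS.{u}) (nne : Fp.NneS.{u}) (pv : H8.PvS.{u}) (hW : Wt.WS.{u})
    (hH : HwS.{u}) : VthmS.{u} :=
  vthm Bs.red' hW hH (atS fpf nne pv)

end Pool.Agent.FourGp.FF.Vt
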