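import Pool.Agent.Lib.MP_fb3619_al.V.Iface

/-!
# MP_fb3619_al, board V: from the frame form to the setting of the problem
-/

set_option autoImplicit false

universe u

namespace Pool.Agent.FourGp.FF.Vt

open Pool.Agent.FourGp.H99 (LF LF_ext)
open Pool.Agent.FourGp.FF.Bs (MinC Min0 RedS)

theorem resV (hV : VthmS.{u}) (G : Type u) [Group G] (hG : Monoid.IsTorsion G) (R : Subgroup G)
    (hR4 : Nat.card R = 4) (hR2 : ∀ r ∈ R, r ^ 2 = 1) (N : Subgroup G) [N.Normal]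
    (hN : ∀ g ∈ N, g ^ 2 = 1 → g = 1)
    (hfin : Finite ↥(N ⊓ Subgroup.centralizer (R : Set G))) :
    (∀ H ≤ N, H.FG → Finite H) ∧
      ((∀ H : Subgroup (G ⧸ N), H.FG → Finite H) → ∀ H : Subgroup G, H.FG → Finite H) := by
  obtain ⟨t, ht, ht1⟩ : ∃ t ∈ R, t ≠ 1 := by
    by_contra hne
    push Not at hne
    have : R = ⊥ := (Subgroup.eq_bot_iff_forall _).2 hne
    rw [this] at hR4
    simp at hR4
  obtain ⟨a, ha, b, hb, -, -, -, -, hfr, hF⟩ := bridge hG R hR4 hR2 N hN ht ht1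
  rw [hF] at hfin
  exact concl N (hV G N a b t hfr (Set.toFinite _))

end Pool.Agent.FourGp.FF.Vt
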